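import Pool.Agent.Mg.F18be4d.G9e9a24

namespace Pool.Agent.Results.MP_18be4d_al.Disproof

theorem result : ∃ (p : ℕ) (G : Type) (_ : Group G) (_ : Finite G), p.Prime ∧
    (∀ g : G, (∀ V : FDRep ℂ G, CategoryTheory.Simple V → ¬ p ∣ Module.finrank ℂ V →
      V.character g = V.character 1) → g = 1) ∧
    (∃ F : Subgroup G, IsGreatest {N : Subgroup G | N.Normal ∧ Group.IsNilpotent N} F ∧
      p ∣ F.index) ∧
    (Nat.card (ConjClasses G) : ℝ) < p / Real.logb 2 p :=
  Pool.Agent.MP_18be4d_al.main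

end Pool.Agent.Results.MP_18be4d_al.Disproof
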